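import Mathlib

set_option autoImplicit false

namespace Pool.Agent.N578.Enc

/-- Prefix-decodable encodings of weakly increasing sequences take many values. -/
theorem det_core {n L : ℕ} {γ : Type*} (e : (Fin n → ℕ) → γ) (S : Finset γ)
    (hS : ∀ t : Fin n → ℕ, Monotone t → (∀ k, t k ≤ L) → e t ∈ S)
    (h : ∀ t t' : Fin n → ℕ, Monotone t → Monotone t' → (∀ k, t k ≤ L) → (∀ k, t' k ≤ L) →
      e t = e t' → ∀ j, (∀ i, i < j → t i = t' i) → ¬ t j < t' j) :
    (n + L).choose n ≤ S.card := by
  classical
  -- strictly increasing sequences in `range (n+L)` correspond to weakly increasing ones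
  have hcard : (Finset.powersetCard n (Finset.range (n + L))).card = (n + L).choose n := by
    rw [Finset.card_powersetCard, Finset.card_range]
  rw [← hcard]
  have key : ∀ T ∈ Finset.powersetCard n (Finset.range (n + L)),
      ∃ t : Fin n → ℕ, Monotone t ∧ (∀ k, t k ≤ L) ∧
        (Finset.univ.image fun k : Fin n => t k + (k : ℕ)) = T := by
    intro T hT
    rw [Finset.mem_powersetCard] at hT
    obtain ⟨hsub, hc⟩ := hT
    set o := T.orderEmbOfFin hc with ho
    have hstrict : ∀ i j : Fin n, i < j → o i < o j := fun i j hij => o.strictMono hij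
    have hge : ∀ k : ℕ, ∀ hk : k < n, k ≤ o ⟨k, hk⟩ := by
      intro k
      induction k with
      | zero => intro hk; exact Nat.zero_le _
      | succ k ih =>
        intro hk
        have h1 := ih (by omega)
        have h2 := hstrict ⟨k, by omega⟩ ⟨k+1, hk⟩ (by simp [Fin.lt_def])
        omega
    have hstep : ∀ d : ℕ, ∀ i j : ℕ, ∀ hi : i < n, ∀ hj : j < n, j = i + d →
        o ⟨i, hi⟩ + d ≤ o ⟨j, hj⟩ := by
      intro d
      induction d with
      | zero => intro i j hi hj hij; subst hij; simp
      | succ d ih =>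
        intro i j hi hj hij
        have h1 := ih i (i + d) hi (by omega) rfl
        have h2 := hstrict ⟨i+d, by omega⟩ ⟨j, hj⟩ (by simp [Fin.lt_def]; omega)
        omega
    have hlt : ∀ k : Fin n, o k < n + L := by
      intro k
      have := hsub (T.orderEmbOfFin_mem hc k)
      simpa using this
    refine ⟨fun k => o k - (k : ℕ), ?_, ?_, ?_⟩
    · intro i j hij
      have h1 := hstep ((j : ℕ) - i) i j i.2 j.2 (by have : (i : ℕ) ≤ j := hij; omega)
      have h2 := hge i i.2
      have h3 : (i : ℕ) ≤ j := hij
      simp only [Fin.eta] at h1 h2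
      show o i - (i : ℕ) ≤ o j - (j : ℕ)
      omega
    · intro k
      have hk := k.2
      have h1 := hstep (n - 1 - k) k (n - 1) k.2 (by omega) (by omega)
      have h2 := hlt ⟨n - 1, by omega⟩
      simp only [Fin.eta] at h1
      show o k - (k : ℕ) ≤ L
      omega
    · ext x
      simp only [Finset.mem_image, Finset.mem_univ, true_and]
      constructor
      · rintro ⟨k, hk⟩
        have h2 := hge k k.2
        simp only [Fin.eta] at h2
        have : x = o k := by omega
        rw [this]
        exact T.orderEmbOfFin_mem hc k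
      · intro hx
        have : x ∈ Set.range o := by
          rw [ho, Finset.range_orderEmbOfFin]; exact hx
        obtain ⟨k, hk⟩ := this
        refine ⟨k, ?_⟩
        have h2 := hge k k.2
        simp only [Fin.eta] at h2
        omega
  choose! φ hφ1 hφ2 hφ3 using key
  refine Finset.card_le_card_of_injOn (fun T => e (φ T)) ?_ ?_
  · intro T hT
    exact hS _ (hφ1 T hT) (hφ2 T hT)
  · intro T hT T' hT' heq
    have hT0 := Finset.mem_coe.1 hT
    have hT0' := Finset.mem_coe.1 hT'
    by_contra hne
    have hne' : φ T ≠ φ T' := by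
      intro hh
      apply hne
      rw [← hφ3 T hT0, ← hφ3 T' hT0', hh]
    -- first difference
    have hex : ∃ j : Fin n, φ T j ≠ φ T' j := Function.ne_iff.1 hne'
    obtain ⟨j, hj1, hj2⟩ : ∃ j : Fin n, φ T j ≠ φ T' j ∧ ∀ i, i < j → φ T i = φ T' i := by
      have hwf : WellFounded (fun a b : Fin n => a < b) := wellFounded_lt
      refine ⟨hwf.min {j | φ T j ≠ φ T' j} hex, hwf.min_mem _ hex, ?_⟩
      intro i hi
      by_contra hc
      exact hwf.not_lt_min {j | φ T j ≠ φ T' j} hc hi
    rcases lt_or_gt_of_ne hj1 with hlt | hgt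
    · exact h _ _ (hφ1 T hT0) (hφ1 T' hT0') (hφ2 T hT0) (hφ2 T' hT0') heq j hj2 hlt
    · exact h _ _ (hφ1 T' hT0') (hφ1 T hT0) (hφ2 T' hT0') (hφ2 T hT0) heq.symm j
        (fun i hi => (hj2 i hi).symm) hgt

end Pool.Agent.N578.Enc
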