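import Mathlib

set_option autoImplicit false

namespace Pool.Agent.N578.Enc

open Finset

/-- Number of subsets of `Fin N` of size at most `5N/12`. -/
theorem small_sets (N : ℕ) :
    (((univ : Finset (Finset (Fin N))).filter (fun T => 12 * T.card ≤ 5 * N)).card : ℝ) ^ 12 ≤
      (8916100448256 / 2573571875 : ℝ) ^ N := by
  set F := (univ : Finset (Finset (Fin N))).filter (fun T => 12 * T.card ≤ 5 * N) with hF
  have hsum : ∑ T : Finset (Fin N), (5 / 7 : ℝ) ^ T.card = (12 / 7 : ℝ) ^ N := by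
    have h1 := Finset.sum_pow_mul_eq_add_pow (5 / 7 : ℝ) 1 (univ : Finset (Fin N))
    simp only [one_pow, mul_one, Finset.powerset_univ, Finset.card_univ, Fintype.card_fin] at h1
    rw [h1]; norm_num
  set y : ℝ := (5 / 7 : ℝ) ^ ((5 * N : ℝ) / 12) with hy
  have hy0 : 0 < y := Real.rpow_pos_of_pos (by norm_num) _
  have hy12 : y ^ 12 = (5 / 7 : ℝ) ^ (5 * N) := by
    rw [hy, ← Real.rpow_natCast, ← Real.rpow_mul (by norm_num), ← Real.rpow_natCast]
    congr 1
    push_cast
    ring
  have hle : (F.card : ℝ) * y ≤ (12 / 7 : ℝ) ^ N := by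
    rw [← hsum]
    calc (F.card : ℝ) * y = ∑ T ∈ F, y := by rw [Finset.sum_const, nsmul_eq_mul]
      _ ≤ ∑ T ∈ F, (5 / 7 : ℝ) ^ T.card := by
          apply Finset.sum_le_sum
          intro T hT
          have hT' : 12 * T.card ≤ 5 * N := (Finset.mem_filter.1 hT).2
          rw [hy, ← Real.rpow_natCast]
          apply Real.rpow_le_rpow_of_exponent_ge (by norm_num) (by norm_num)
          rw [le_div_iff₀ (by norm_num)]
          have : ((12 * T.card : ℕ) : ℝ) ≤ ((5 * N : ℕ) : ℝ) := by exact_mod_cast hT'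
          push_cast at this
          linarith
      _ ≤ ∑ T : Finset (Fin N), (5 / 7 : ℝ) ^ T.card :=
          Finset.sum_le_sum_of_subset_of_nonneg (Finset.subset_univ _)
            (fun _ _ _ => by positivity)
  have h12 : (F.card : ℝ) ^ 12 * (5 / 7 : ℝ) ^ (5 * N) ≤ ((12 / 7 : ℝ) ^ N) ^ 12 := by
    rw [← hy12, ← mul_pow]
    exact pow_le_pow_left₀ (by positivity) hle 12
  have h57 : (0 : ℝ) < (5 / 7 : ℝ) ^ (5 * N) := by positivity
  have : (F.card : ℝ) ^ 12 ≤ ((12 / 7 : ℝ) ^ N) ^ 12 / (5 / 7 : ℝ) ^ (5 * N) := by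
    rw [le_div_iff₀ h57]; exact h12
  refine this.trans (le_of_eq ?_)
  rw [← pow_mul, mul_comm N 12, pow_mul, pow_mul, ← div_pow]
  norm_num

/-- A numerical step. -/
theorem final_arith (N : ℕ) (X Y : ℝ) (hX : 0 < X) (hY : 0 ≤ Y) (h64 : X ^ 6 = (64 : ℝ) ^ N)
    (h4096 : X ^ 12 = (4096 : ℝ) ^ N) (h6 : X ^ 12 ≤ Y ^ 12 * (3465 : ℝ) ^ N) :
    X ≤ Y ^ 50 := by
  obtain ⟨Z, hZ⟩ : ∃ Z : ℝ, Z = (3465 : ℝ) ^ N := ⟨_, rfl⟩
  have hZ0 : 0 < Z := by rw [hZ]; positivity
  rw [← hZ] at h6
  have h7 : X ^ 6 * Z ^ 25 ≤ X ^ 300 := by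
    have hB : (64 : ℝ) * 3465 ^ 25 ≤ 4096 ^ 25 := by norm_num
    have e1 : X ^ 300 = (X ^ 12) ^ 25 := by ring
    have e2 : ((4096 : ℝ) ^ N) ^ 25 = ((4096 : ℝ) ^ 25) ^ N := by
      rw [← pow_mul, ← pow_mul, mul_comm]
    have e3 : Z ^ 25 = ((3465 : ℝ) ^ 25) ^ N := by
      rw [hZ, ← pow_mul, ← pow_mul, mul_comm]
    rw [e1, h4096, h64, e2, e3, ← mul_pow]
    exact pow_le_pow_left₀ (by positivity) hB N
  have h8 : X ^ 300 ≤ Y ^ 300 * Z ^ 25 := by
    have h := pow_le_pow_left₀ (by positivity) h6 25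
    have e1 : X ^ 300 = (X ^ 12) ^ 25 := by ring
    have e2 : Y ^ 300 * Z ^ 25 = (Y ^ 12 * Z) ^ 25 := by ring
    rw [e1, e2]; exact h
  have h9 : X ^ 6 ≤ (Y ^ 50) ^ 6 := by
    have e1 : (Y ^ 50) ^ 6 = Y ^ 300 := by ring
    rw [e1]
    exact le_of_mul_le_mul_right (h7.trans h8) (by positivity)
  exact le_of_pow_le_pow_left₀ (by norm_num : (6 : ℕ) ≠ 0) (pow_nonneg hY 50) h9

/-- Augmented indexing lower bound, worst case over inputs, public randomness `r` with weights
`w r`, error probability at most `1/3`. -/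
theorem rand_core {N : ℕ} {Ω : Type*} [Fintype Ω] (w : Ω → ℝ) (hw0 : ∀ r, 0 ≤ w r)
    (hw1 : ∑ r, w r = 1) {γ : Type*} (q : ℕ)
    (e : Ω → (Fin N → Bool) → γ) (S : Ω → Finset γ) (hq : ∀ r, (S r).card ≤ q)
    (hS : ∀ r x, e r x ∈ S r)
    (dec : Ω → Fin N → (Fin N → Bool) → Bool)
    (hdec : ∀ r k x y, e r x = e r y → (∀ i, i < k → x i = y i) → dec r k x = dec r k y)
    (herr : ∀ k x, ∑ r, (if dec r k x = x k then 0 else w r) ≤ 1 / 3) :
    2 ^ N ≤ (5 * q) ^ 50 := by
  classical
  rcases Nat.eq_zero_or_pos N with hN | hN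
  · subst hN
    have hq1 : 1 ≤ q := by
      obtain ⟨r⟩ : Nonempty Ω := by
        by_contra hne
        rw [not_nonempty_iff] at hne
        simp at hw1
      have : (S r).Nonempty := ⟨_, hS r (fun _ => true)⟩
      exact (Finset.card_pos.2 this).trans_le (hq r)
    calc 2 ^ 0 = 1 := rfl
      _ ≤ (5 * q) ^ 50 := Nat.one_le_pow _ _ (by omega)
  -- error sets
  set E : Ω → (Fin N → Bool) → Finset (Fin N) :=
    fun r x => univ.filter (fun k => dec r k x ≠ x k) with hE
  -- injectivity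
  have hinj : ∀ r x y, e r x = e r y → E r x = E r y → x = y := by
    intro r x y hxy hExy
    have : ∀ m : ℕ, ∀ hm : m < N, x ⟨m, hm⟩ = y ⟨m, hm⟩ := by
      intro m
      induction m using Nat.strong_induction_on with
      | _ m ih =>
        intro hm
        have hd := hdec r ⟨m, hm⟩ x y hxy (fun i hi => ih i.1 (by simpa [Fin.lt_def] using hi) i.2)
        have hmem : (⟨m, hm⟩ : Fin N) ∈ E r x ↔ (⟨m, hm⟩ : Fin N) ∈ E r y := by rw [hExy]
        simp only [hE, mem_filter, mem_univ, true_and, hd] at hmem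
        revert hmem
        cases dec r ⟨m, hm⟩ y <;> cases x ⟨m, hm⟩ <;> cases y ⟨m, hm⟩ <;> simp
    funext k
    exact this k.1 k.2
  -- average over inputs
  have hcardX : (Fintype.card (Fin N → Bool)) = 2 ^ N := by simp
  have havg : ∑ r, w r * (∑ x : Fin N → Bool, ((E r x).card : ℝ)) ≤ (N : ℝ) * 2 ^ N / 3 := by
    have h1 : ∀ r, ∀ x : Fin N → Bool,
        w r * ((E r x).card : ℝ) = ∑ k : Fin N, (if dec r k x = x k then 0 else w r) := by
      intro r x
      rw [hE]
      simp only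
      rw [Finset.card_filter]
      push_cast
      rw [Finset.mul_sum]
      apply Finset.sum_congr rfl
      intro k _
      by_cases h : dec r k x = x k <;> simp [h]
    calc ∑ r, w r * (∑ x : Fin N → Bool, ((E r x).card : ℝ))
        = ∑ r, ∑ x : Fin N → Bool, ∑ k : Fin N, (if dec r k x = x k then 0 else w r) := by
          apply Finset.sum_congr rfl
          intro r _
          rw [Finset.mul_sum]
          apply Finset.sum_congr rfl
          intro x _
          exact h1 r x
      _ = ∑ x : Fin N → Bool, ∑ k : Fin N, ∑ r, (if dec r k x = x k then 0 else w r) := by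
          rw [Finset.sum_comm]
          apply Finset.sum_congr rfl
          intro x _
          rw [Finset.sum_comm]
      _ ≤ ∑ x : Fin N → Bool, ∑ k : Fin N, (1 / 3 : ℝ) := by
          apply Finset.sum_le_sum
          intro x _
          apply Finset.sum_le_sum
          intro k _
          exact herr k x
      _ = (N : ℝ) * 2 ^ N / 3 := by
          simp [Finset.sum_const, Finset.card_univ]
          ring
  obtain ⟨r, hr⟩ : ∃ r, (∑ x : Fin N → Bool, ((E r x).card : ℝ)) ≤ (N : ℝ) * 2 ^ N / 3 := by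
    by_contra hcon
    push Not at hcon
    have h2 : ∑ r, w r * ((N : ℝ) * 2 ^ N / 3) <
        ∑ r, w r * (∑ x : Fin N → Bool, ((E r x).card : ℝ)) := by
      apply Finset.sum_lt_sum
      · intro r _
        exact mul_le_mul_of_nonneg_left (hcon r).le (hw0 r)
      · obtain ⟨r, hr⟩ : ∃ r, w r ≠ 0 := by
          by_contra hc
          push Not at hc
          simp [hc] at hw1
        refine ⟨r, mem_univ _, ?_⟩
        exact mul_lt_mul_of_pos_left (hcon r) (lt_of_le_of_ne (hw0 r) (Ne.symm hr))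
    rw [← Finset.sum_mul, hw1, one_mul] at h2
    linarith
  -- good inputs
  set good : Finset (Fin N → Bool) := univ.filter (fun x => 12 * (E r x).card ≤ 5 * N) with hgood
  have hgoodcard : (2 : ℝ) ^ N ≤ 5 * (good.card : ℝ) := by
    have hbad : ((goodᶜ.card : ℕ) : ℝ) * (5 * N / 12) ≤ (N : ℝ) * 2 ^ N / 3 := by
      calc ((goodᶜ.card : ℕ) : ℝ) * (5 * N / 12) = ∑ x ∈ goodᶜ, (5 * (N : ℝ) / 12) := by
            rw [Finset.sum_const, nsmul_eq_mul]
        _ ≤ ∑ x ∈ goodᶜ, ((E r x).card : ℝ) := by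
            apply Finset.sum_le_sum
            intro x hx
            rw [Finset.mem_compl, hgood, Finset.mem_filter, not_and] at hx
            have hx' := hx (mem_univ _)
            push Not at hx'
            have : ((5 * N : ℕ) : ℝ) < ((12 * (E r x).card : ℕ) : ℝ) := by exact_mod_cast hx'
            push_cast at this
            linarith
        _ ≤ ∑ x : Fin N → Bool, ((E r x).card : ℝ) :=
            Finset.sum_le_sum_of_subset_of_nonneg (Finset.subset_univ _)
              (fun _ _ _ => by positivity)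
        _ ≤ _ := hr
    have hNpos : (0 : ℝ) < N := by exact_mod_cast hN
    have hbad' : ((goodᶜ.card : ℕ) : ℝ) ≤ 4 / 5 * 2 ^ N := by
      have h3 : ((goodᶜ.card : ℕ) : ℝ) * (5 * N / 12) ≤ (4 / 5 * 2 ^ N) * (5 * N / 12) := by
        refine hbad.trans (le_of_eq ?_); ring
      exact le_of_mul_le_mul_right h3 (by positivity)
    have htot : (good.card : ℝ) + ((goodᶜ.card : ℕ) : ℝ) = 2 ^ N := by
      have := Finset.card_add_card_compl good
      rw [hcardX] at this
      exact_mod_cast this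
    linarith
  -- count good inputs
  set small := (univ : Finset (Finset (Fin N))).filter (fun T => 12 * T.card ≤ 5 * N) with hsmall
  have hcount : good.card ≤ q * small.card := by
    calc good.card ≤ (S r ×ˢ small).card := by
          refine Finset.card_le_card_of_injOn (fun x => (e r x, E r x)) ?_ ?_
          · intro x hx
            rw [Finset.mem_coe, hgood, Finset.mem_filter] at hx
            rw [Finset.mem_coe, Finset.mem_product]
            exact ⟨hS r x, by rw [hsmall, Finset.mem_filter]; exact ⟨mem_univ _, hx.2⟩⟩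
          · intro x _ y _ hxy
            simp only [Prod.mk.injEq] at hxy
            exact hinj r x y hxy.1 hxy.2
      _ = (S r).card * small.card := Finset.card_product _ _
      _ ≤ q * small.card := Nat.mul_le_mul_right _ (hq r)
  have hsm := small_sets N
  rw [← hsmall] at hsm
  have h4 : (2 : ℝ) ^ N ≤ (5 * q) * small.card := by
    have : (good.card : ℝ) ≤ (q : ℝ) * small.card := by exact_mod_cast hcount
    nlinarith
  have h5 : ((2 : ℝ) ^ N) ^ 12 ≤ (5 * q : ℝ) ^ 12 * (8916100448256 / 2573571875 : ℝ) ^ N := by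
    calc ((2 : ℝ) ^ N) ^ 12 ≤ ((5 * q) * small.card) ^ 12 := pow_le_pow_left₀ (by positivity) h4 12
      _ = (5 * q : ℝ) ^ 12 * (small.card : ℝ) ^ 12 := by rw [mul_pow]
      _ ≤ _ := mul_le_mul_of_nonneg_left hsm (by positivity)
  -- numbers
  have h64 : ((2 : ℝ) ^ N) ^ 6 = (64 : ℝ) ^ N := by
    rw [← pow_mul, mul_comm, pow_mul]; norm_num
  have h4096 : ((2 : ℝ) ^ N) ^ 12 = (4096 : ℝ) ^ N := by
    rw [← pow_mul, mul_comm, pow_mul]; norm_num
  have h6 : ((2 : ℝ) ^ N) ^ 12 ≤ (5 * (q : ℝ)) ^ 12 * (3465 : ℝ) ^ N := by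
    refine h5.trans (mul_le_mul_of_nonneg_left ?_ (by positivity))
    exact pow_le_pow_left₀ (by norm_num) (by norm_num) N
  have h10 := final_arith N ((2 : ℝ) ^ N) (5 * (q : ℝ)) (by positivity) (by positivity) h64 h4096 h6
  exact_mod_cast h10

end Pool.Agent.N578.Enc
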