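import Mathlib
import Pool.Agent.N578.Enc.Det
import Pool.Agent.N578.Enc.Rand

set_option autoImplicit false

namespace Pool.Agent.N578.Enc

open Finset

/-- `c` is the entry `(i, j)` of the (min,+) product of `A` and `B`. -/
def IsMinPlus {m n p : ℕ} (A : Fin m → Fin n → ℕ) (B : Fin n → Fin p → ℕ) (i : Fin m) (j : Fin p)
    (c : ℕ) : Prop :=
  IsLeast (Set.range fun k : Fin n => A i k + B k j) c

/-- All entries of the two matrices are at most `M`. -/
def Bounded {m n p : ℕ} (M : ℕ) (A : Fin m → Fin n → ℕ) (B : Fin n → Fin p → ℕ) : Prop :=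
  (∀ i k, A i k ≤ M) ∧ (∀ k j, B k j ≤ M)

/-- The product, in the order `k = 0, 1, ...`, of the group elements `F k x y`, where `x` is the
`k`-th column of `A` and `y` is the `k`-th row of `B`. -/
def sliceCode {G : Type*} [Monoid G] {m n p : ℕ} (F : Fin n → (Fin m → ℕ) → (Fin p → ℕ) → G)
    (A : Fin m → Fin n → ℕ) (B : Fin n → Fin p → ℕ) : G :=
  (List.ofFn fun k : Fin n => F k (fun i => A i k) (B k)).prod

/-- There are integers `v 0, ..., v L` with `v L ≤ K` and `v (l + 1) > α * v l + β`. -/
def Scales (α β : ℝ) (L K : ℕ) : Prop :=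
  ∃ v : ℕ → ℕ, (∀ l, l < L → α * (v l : ℝ) + β < (v (l + 1) : ℝ)) ∧ v L ≤ K

/-! ### switching -/

section switch
variable {G : Type*} [Group G] {n : ℕ}

/-- product of the first `j` factors -/
def pre (j : ℕ) (X : Fin n → G) : G := ((List.ofFn X).take j).prod

theorem pre_congr {j : ℕ} {X Y : Fin n → G} (h : ∀ k : Fin n, (k : ℕ) < j → X k = Y k) :
    pre j X = pre j Y := by
  unfold pre
  congr 1
  apply List.ext_getElem
  · simp
  · intro a h1 h2
    simp only [List.length_take, List.length_ofFn, lt_min_iff] at h1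
    simp only [List.getElem_take, List.getElem_ofFn]
    exact h ⟨a, h1.2⟩ h1.1

theorem switch (j : ℕ) (X Y : Fin n → G) :
    (List.ofFn fun k : Fin n => if (k : ℕ) < j then X k else Y k).prod =
      pre j X * (pre j Y)⁻¹ * (List.ofFn Y).prod := by
  have h1 : (List.ofFn fun k : Fin n => if (k : ℕ) < j then X k else Y k).prod =
      pre j (fun k : Fin n => if (k : ℕ) < j then X k else Y k) *
      ((List.ofFn fun k : Fin n => if (k : ℕ) < j then X k else Y k).drop j).prod := by
    unfold pre; rw [List.prod_take_mul_prod_drop]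
  have h2 : (List.ofFn Y).prod = pre j Y * ((List.ofFn Y).drop j).prod := by
    unfold pre; rw [List.prod_take_mul_prod_drop]
  have h3 : (List.ofFn fun k : Fin n => if (k : ℕ) < j then X k else Y k).drop j =
      (List.ofFn Y).drop j := by
    apply List.ext_getElem
    · simp
    · intro a h1 h2
      simp only [List.getElem_drop, List.getElem_ofFn]
      rw [if_neg (by simp)]
  have h4 : pre j (fun k : Fin n => if (k : ℕ) < j then X k else Y k) = pre j X :=
    pre_congr (fun k hk => by simp [hk])
  rw [h1, h2, h3, h4]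
  group

end switch

/-! ### the hard instances -/

section inst
variable {G : Type*} [Group G] {m n p : ℕ}

/-- the slice function for a prescribed sum -/
def f1 (M : ℕ) (i : Fin m) (j : Fin p) (F : Fin n → (Fin m → ℕ) → (Fin p → ℕ) → G)
    (k : Fin n) (x : ℕ) : G :=
  F k (fun i' => if i' = i then min x M else 0) (fun j' => if j' = j then x - min x M else 0)

theorem hard_inst (M : ℕ) (i : Fin m) (j : Fin p)
    (F : Fin n → (Fin m → ℕ) → (Fin p → ℕ) → G) (s : Fin n → ℕ) (hs : ∀ k, s k ≤ 2 * M) :
    ∃ (A : Fin m → Fin n → ℕ) (B : Fin n → Fin p → ℕ), Bounded M A B ∧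
      sliceCode F A B = (List.ofFn fun k => f1 M i j F k (s k)).prod ∧
      ∀ c, IsLeast (Set.range s) c → IsMinPlus A B i j c := by
  refine ⟨fun i' k => if i' = i then min (s k) M else 0,
    fun k j' => if j' = j then s k - min (s k) M else 0, ⟨?_, ?_⟩, rfl, ?_⟩
  · intro i' k
    dsimp only
    split_ifs
    · exact min_le_right _ _
    · exact Nat.zero_le _
  · intro k j'
    dsimp only
    have := hs k
    split_ifs
    · omega
    · exact Nat.zero_le _
  · intro c hc
    unfold IsMinPlus
    have : (fun k : Fin n => (if i = i then min (s k) M else 0) +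
        (if j = j then s k - min (s k) M else 0)) = s := by
      funext k
      simp only [if_true]
      omega
    rw [this]
    exact hc

end inst

theorem scales_mono {α β : ℝ} (hα : 1 ≤ α) (hβ : 0 ≤ β) {L : ℕ} {v : ℕ → ℕ}
    (hv : ∀ l, l < L → α * (v l : ℝ) + β < (v (l + 1) : ℝ)) :
    ∀ a b, a ≤ b → b ≤ L → v a ≤ v b := by
  intro a b hab
  induction b, hab using Nat.le_induction with
  | base => intro _; exact le_rfl
  | succ b hab ih =>
    intro hb
    have h1 := ih (by omega)
    have h2 := hv b (by omega)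
    have h3 : (v b : ℝ) < (v (b + 1) : ℝ) := by
      have : (v b : ℝ) ≤ α * v b := le_mul_of_one_le_left (by positivity) hα
      linarith
    have h4 : v b < v (b + 1) := by exact_mod_cast h3
    omega

theorem scales_lt {α β : ℝ} (hα : 1 ≤ α) (hβ : 0 ≤ β) {L : ℕ} {v : ℕ → ℕ}
    (hv : ∀ l, l < L → α * (v l : ℝ) + β < (v (l + 1) : ℝ)) :
    ∀ a b, a < b → b ≤ L → α * (v a : ℝ) + β < v b := by
  intro a b hab hb
  have h1 := scales_mono hα hβ hv (a + 1) b hab hb
  have h2 := hv a (by omega)
  have h3 : (v (a + 1) : ℝ) ≤ v b := by exact_mod_cast h1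
  linarith

section main
variable {G : Type*} [Group G] {m n p : ℕ}

theorem det_group (M L : ℕ) (i : Fin m) (j : Fin p) (α β : ℝ) (hα : 1 ≤ α) (hβ : 0 ≤ β)
    (hsc : Scales α β L (2 * M))
    (F : Fin n → (Fin m → ℕ) → (Fin p → ℕ) → G) (D : G → ℝ)
    (hD : ∀ A B, Bounded M A B → ∀ c, IsMinPlus A B i j c →
      (c : ℝ) ≤ D (sliceCode F A B) ∧ D (sliceCode F A B) ≤ α * c + β)
    (S : Finset G) (hS : ∀ A B, Bounded M A B → sliceCode F A B ∈ S) :
    (n + L).choose n ≤ S.card := by
  obtain ⟨v, hv, hvL⟩ := hsc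
  have hmono := scales_mono hα hβ hv
  have hlt := scales_lt hα hβ hv
  have hle : ∀ l, l ≤ L → v l ≤ 2 * M := fun l hl => (hmono l L hl le_rfl).trans hvL
  refine det_core (fun t => (List.ofFn fun k => f1 M i j F k (v (t k))).prod) S ?_ ?_
  · intro t ht htL
    obtain ⟨A, B, hAB, hc, -⟩ := hard_inst M i j F (fun k => v (t k)) (fun k => hle _ (htL k))
    rw [← hc]
    exact hS A B hAB
  · intro t t' ht ht' htL htL' heq j₀ hagree hlt0
    -- modified sequences
    have hmod : ∀ u : Fin n → ℕ, Monotone u → (∀ k, u k ≤ L) →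
        ∃ z : G, z = (List.ofFn fun k : Fin n => if (k : ℕ) < (j₀ : ℕ) then f1 M i j F k (v L)
            else f1 M i j F k (v (u k))).prod ∧
          (v (u j₀) : ℝ) ≤ D z ∧ D z ≤ α * (v (u j₀) : ℝ) + β := by
      intro u hu huL
      obtain ⟨A, B, hAB, hc, hmin⟩ := hard_inst M i j F
        (fun k : Fin n => if (k : ℕ) < (j₀ : ℕ) then v L else v (u k)) (by
          intro k; split_ifs
          · exact hvL
          · exact hle _ (huL k))
      refine ⟨sliceCode F A B, ?_, ?_⟩
      · rw [hc]
        congr 2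
        funext k
        split_ifs <;> rfl
      · apply hD A B hAB
        apply hmin
        constructor
        · exact ⟨j₀, by simp⟩
        · rintro _ ⟨k, rfl⟩
          dsimp only
          split_ifs with hk
          · exact hmono _ _ (huL j₀) le_rfl
          · exact hmono _ _ (hu (by rw [Fin.le_def]; omega)) (huL k)
    obtain ⟨z, hz, hz1, hz2⟩ := hmod t ht htL
    obtain ⟨z', hz', hz1', hz2'⟩ := hmod t' ht' htL'
    have hzz : z = z' := by
      rw [hz, hz', switch, switch, heq]
      congr 2
      rw [pre_congr (fun k hk => by rw [hagree k (by rw [Fin.lt_def]; exact hk)])]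
    rw [← hzz] at hz1'
    have := hlt _ _ hlt0 (htL' j₀)
    linarith

open Classical in
theorem rand_group (M L : ℕ) (i : Fin m) (j : Fin p) (α β : ℝ) (hα : 1 ≤ α) (hβ : 0 ≤ β)
    (hsc : Scales α β L (2 * M))
    {Ω : Type*} [Fintype Ω] (w : Ω → ℝ) (hw0 : ∀ r, 0 ≤ w r) (hw1 : ∑ r, w r = 1)
    (F : Ω → Fin n → (Fin m → ℕ) → (Fin p → ℕ) → G) (D : Ω → G → ℝ)
    (hD : ∀ A B, Bounded M A B → ∀ c, IsMinPlus A B i j c →
      ∑ r, (if (c : ℝ) ≤ D r (sliceCode (F r) A B) ∧ D r (sliceCode (F r) A B) ≤ α * c + β
        then 0 else w r) ≤ 1 / 3)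
    (q : ℕ) (S : Ω → Finset G) (hq : ∀ r, (S r).card ≤ q)
    (hS : ∀ r A B, Bounded M A B → sliceCode (F r) A B ∈ S r) :
    2 ^ (min n ((L + 1) / 2)) ≤ (5 * q) ^ 50 := by
  obtain ⟨v, hv, hvL⟩ := hsc
  have hmono := scales_mono hα hβ hv
  have hlt := scales_lt hα hβ hv
  have hle : ∀ l, l ≤ L → v l ≤ 2 * M := fun l hl => (hmono l L hl le_rfl).trans hvL
  set N := min n ((L + 1) / 2) with hN
  have hNn : N ≤ n := min_le_left _ _
  have hNL : 2 * N ≤ L + 1 := by
    have : N ≤ (L + 1) / 2 := min_le_right _ _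
    omega
  -- the sequence of scales
  let t : (Fin N → Bool) → Fin n → ℕ := fun x k =>
    if h : (k : ℕ) < N then 2 * (k : ℕ) + (if x ⟨k, h⟩ then 1 else 0) else L
  have htL : ∀ x k, t x k ≤ L := by
    intro x k
    show (if h : (k : ℕ) < N then 2 * (k : ℕ) + (if x ⟨k, h⟩ then 1 else 0) else L : ℕ) ≤ L
    split_ifs <;> omega
  let kk : Fin N → Fin n := fun k => ⟨k, lt_of_lt_of_le k.2 hNn⟩
  have htk : ∀ x (k : Fin N), t x (kk k) = 2 * k + (if x k then 1 else 0) := by
    intro x k
    show (if h : (k : ℕ) < N then 2 * (k : ℕ) + (if x ⟨k, h⟩ then 1 else 0) else L) = _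
    rw [dif_pos k.2]
  have htmono : ∀ x (k : Fin N) (l : Fin n), (k : ℕ) ≤ l → t x (kk k) ≤ t x l := by
    intro x k l hkl
    rcases eq_or_lt_of_le hkl with h | h
    · have : kk k = l := Fin.ext h
      rw [this]
    · rw [htk]
      show _ ≤ (if h : (l : ℕ) < N then 2 * (l : ℕ) + (if x ⟨l, h⟩ then 1 else 0) else L)
      have := k.2
      split_ifs <;> omega
  have htagree : ∀ x y (k : Fin N), (∀ l, l < k → x l = y l) →
      ∀ l : Fin n, (l : ℕ) < (k : ℕ) → t x l = t y l := by
    intro x y k hxy l hl
    show (if h : (l : ℕ) < N then 2 * (l : ℕ) + (if x ⟨l, h⟩ then 1 else 0) else L) =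
      (if h : (l : ℕ) < N then 2 * (l : ℕ) + (if y ⟨l, h⟩ then 1 else 0) else L)
    have h : (l : ℕ) < N := lt_trans hl k.2
    rw [dif_pos h, dif_pos h, hxy ⟨l, h⟩ (by rw [Fin.lt_def]; exact hl)]
  -- codes
  let e : Ω → (Fin N → Bool) → G := fun r x =>
    (List.ofFn fun k => f1 M i j (F r) k (v (t x k))).prod
  let z : Ω → Fin N → (Fin N → Bool) → G := fun r k x =>
    (List.ofFn fun l : Fin n => if (l : ℕ) < (k : ℕ) then f1 M i j (F r) l (v L)
            else f1 M i j (F r) l (v (t x l))).prod
  refine rand_core w hw0 hw1 q e S hq ?_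
    (fun r k x => decide ((v (2 * (k : ℕ) + 1) : ℝ) ≤ D r (z r k x))) ?_ ?_
  · intro r x
    obtain ⟨A, B, hAB, hc, -⟩ := hard_inst M i j (F r) (fun k => v (t x k))
      (fun k => hle _ (htL x k))
    show (List.ofFn fun k => f1 M i j (F r) k (v (t x k))).prod ∈ S r
    rw [← hc]
    exact hS r A B hAB
  · intro r k x y hxy hag
    have hzz : z r k x = z r k y := by
      show (List.ofFn fun l : Fin n => if (l : ℕ) < (k : ℕ) then f1 M i j (F r) l (v L)
            else f1 M i j (F r) l (v (t x l))).prod =
        (List.ofFn fun l : Fin n => if (l : ℕ) < (k : ℕ) then f1 M i j (F r) l (v L)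
            else f1 M i j (F r) l (v (t y l))).prod
      rw [switch, switch]
      have h1 : (List.ofFn fun k => f1 M i j (F r) k (v (t x k))).prod =
        (List.ofFn fun k => f1 M i j (F r) k (v (t y k))).prod := hxy
      rw [h1]
      congr 2
      rw [pre_congr (fun l hl => by rw [htagree x y k hag l hl])]
    rw [hzz]
  · intro k x
    obtain ⟨A, B, hAB, hc, hmin⟩ : ∃ (A : Fin m → Fin n → ℕ) (B : Fin n → Fin p → ℕ),
        Bounded M A B ∧ (∀ r, sliceCode (F r) A B = z r k x) ∧
        IsMinPlus A B i j (v (t x (kk k))) := by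
      obtain ⟨A, B, hAB, hmin⟩ : ∃ (A : Fin m → Fin n → ℕ) (B : Fin n → Fin p → ℕ),
          Bounded M A B ∧ (∀ r, sliceCode (F r) A B =
            (List.ofFn fun l => f1 M i j (F r) l
              (if (l : ℕ) < (k : ℕ) then v L else v (t x l))).prod) ∧
          ∀ c, IsLeast (Set.range fun l : Fin n =>
            (if (l : ℕ) < (k : ℕ) then v L else v (t x l))) c → IsMinPlus A B i j c := by
        refine ⟨fun i' l => if i' = i then min (if (l : ℕ) < (k : ℕ) then v L else v (t x l)) M
            else 0,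
          fun l j' => if j' = j then (if (l : ℕ) < (k : ℕ) then v L else v (t x l)) -
            min (if (l : ℕ) < (k : ℕ) then v L else v (t x l)) M else 0, ⟨?_, ?_⟩,
            fun r => rfl, ?_⟩
        · intro i' l
          dsimp only
          by_cases h : i' = i
          · rw [if_pos h]; exact min_le_right _ _
          · rw [if_neg h]; exact Nat.zero_le _
        · intro l j'
          dsimp only
          have h0 : (if (l : ℕ) < (k : ℕ) then v L else v (t x l)) ≤ 2 * M := by
            split_ifs
            · exact hvL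
            · exact hle _ (htL x l)
          by_cases h : j' = j
          · rw [if_pos h]; omega
          · rw [if_neg h]; exact Nat.zero_le _
        · intro c hc
          unfold IsMinPlus
          convert hc using 3 with l
          simp only [if_true]
          omega
      refine ⟨A, B, hAB, ?_, ?_⟩
      · intro r
        rw [hmin.1 r]
        show _ = (List.ofFn fun l : Fin n => if (l : ℕ) < (k : ℕ) then f1 M i j (F r) l (v L)
            else f1 M i j (F r) l (v (t x l))).prod
        congr 2
        funext l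
        split_ifs <;> rfl
      · apply hmin.2
        constructor
        · refine ⟨kk k, ?_⟩
          have : ¬ ((kk k : Fin n) : ℕ) < (k : ℕ) := by show ¬ (k : ℕ) < k; omega
          simp only [if_neg this]
        · rintro _ ⟨l, rfl⟩
          dsimp only
          split_ifs with hl
          · exact hmono _ _ (htL x _) le_rfl
          · exact hmono _ _ (htmono x k l (by omega)) (htL x l)
    refine le_trans (Finset.sum_le_sum ?_) (hD A B hAB _ hmin)
    intro r _
    rw [hc r]
    by_cases hgood : ((v (t x (kk k)) : ℕ) : ℝ) ≤ D r (z r k x) ∧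
        D r (z r k x) ≤ α * ((v (t x (kk k)) : ℕ) : ℝ) + β
    · rw [if_pos hgood, if_pos]
      rw [htk] at hgood
      cases hx : x k with
      | true =>
        rw [hx] at hgood
        simp only [if_true] at hgood
        simp only [decide_eq_true_eq]
        exact hgood.1
      | false =>
        rw [hx] at hgood
        simp only [Bool.false_eq_true, if_false, add_zero] at hgood
        simp only [decide_eq_false_iff_not, not_le]
        have := hlt (2 * (k : ℕ)) (2 * (k : ℕ) + 1) (by omega) (by have := k.2; omega)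
        linarith [hgood.2]
    · rw [if_neg hgood]
      split_ifs
      · exact hw0 r
      · exact le_rfl

end main

end Pool.Agent.N578.Enc
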