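import Mathlib
import Pool.Agent.N578.Enc.Main

set_option autoImplicit false

namespace Pool.Agent.N578.Enc

open Finset

/-! ### products of matrices over rings -/

/-- The entries `(i, j)` of `T` matrix products: the `t`-th product is over the ring `R t`, the
entry `(i, k)` of its first factor is `f t k` of the `k`-th column of `A`, and the entry `(k, j)` of
its second factor is `g t k` of the `k`-th row of `B`. -/
def ringCode {T : ℕ} {R : Fin T → Type} [∀ t, Ring (R t)] {m n p : ℕ}
    (f : ∀ t, Fin n → (Fin m → ℕ) → R t) (g : ∀ t, Fin n → (Fin p → ℕ) → R t)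
    (A : Fin m → Fin n → ℕ) (B : Fin n → Fin p → ℕ) : ∀ t, R t :=
  fun t => ∑ k, f t k (fun i => A i k) * g t k (B k)

section ring
variable {T : ℕ} {R : Fin T → Type} [∀ t, Ring (R t)] [∀ t, Fintype (R t)] {m n p : ℕ}

theorem code_eq (f : ∀ t, Fin n → (Fin m → ℕ) → R t) (g : ∀ t, Fin n → (Fin p → ℕ) → R t)
    (A : Fin m → Fin n → ℕ) (B : Fin n → Fin p → ℕ) :
    sliceCode (G := Multiplicative (∀ t, R t))
      (fun k a b => Multiplicative.ofAdd (fun t => f t k a * g t k b)) A B =
      Multiplicative.ofAdd (ringCode f g A B) := by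
  unfold sliceCode ringCode
  rw [List.prod_ofFn, ← ofAdd_sum]
  congr 1
  funext t
  rw [Finset.sum_apply]

theorem card_le (w : ℕ) (hR : ∀ t, Fintype.card (R t) ≤ 2 ^ w) :
    Nat.card (∀ t, R t) ≤ 2 ^ (w * T) := by
  classical
  rw [Nat.card_eq_fintype_card, Fintype.card_pi]
  calc ∏ t, Fintype.card (R t) ≤ ∏ _t : Fin T, 2 ^ w := Finset.prod_le_prod' (fun t _ => hR t)
    _ = 2 ^ (w * T) := by rw [Finset.prod_const, Finset.card_univ, Fintype.card_fin, ← pow_mul]

theorem det_ring (M L w : ℕ) (i : Fin m) (j : Fin p) (α β : ℝ) (hα : 1 ≤ α) (hβ : 0 ≤ β)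
    (hsc : Scales α β L (2 * M)) (hR : ∀ t, Fintype.card (R t) ≤ 2 ^ w)
    (f : ∀ t, Fin n → (Fin m → ℕ) → R t) (g : ∀ t, Fin n → (Fin p → ℕ) → R t)
    (D : (∀ t, R t) → ℝ)
    (hD : ∀ A B, Bounded M A B → ∀ c, IsMinPlus A B i j c →
      (c : ℝ) ≤ D (ringCode f g A B) ∧ D (ringCode f g A B) ≤ α * c + β) :
    (n + L).choose n ≤ 2 ^ (w * T) := by
  classical
  have := det_group (G := Multiplicative (∀ t, R t)) M L i j α β hα hβ hsc
    (fun k a b => Multiplicative.ofAdd (fun t => f t k a * g t k b))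
    (fun z => D (Multiplicative.toAdd z)) (by
      intro A B hAB c hc
      rw [code_eq, toAdd_ofAdd]
      exact hD A B hAB c hc) Finset.univ (fun _ _ _ => Finset.mem_univ _)
  refine this.trans ?_
  rw [Finset.card_univ, ← Nat.card_eq_fintype_card]
  exact card_le w hR

open Classical in
theorem rand_ring (M L w : ℕ) (i : Fin m) (j : Fin p) (α β : ℝ) (hα : 1 ≤ α) (hβ : 0 ≤ β)
    (hsc : Scales α β L (2 * M)) (hR : ∀ t, Fintype.card (R t) ≤ 2 ^ w)
    {Ω : Type} [Fintype Ω] (P : Ω → ℝ) (hP0 : ∀ r, 0 ≤ P r) (hP1 : ∑ r, P r = 1)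
    (f : Ω → ∀ t, Fin n → (Fin m → ℕ) → R t) (g : Ω → ∀ t, Fin n → (Fin p → ℕ) → R t)
    (D : Ω → (∀ t, R t) → ℝ)
    (hD : ∀ A B, Bounded M A B → ∀ c, IsMinPlus A B i j c →
      ∑ r, (if (c : ℝ) ≤ D r (ringCode (f r) (g r) A B) ∧
        D r (ringCode (f r) (g r) A B) ≤ α * c + β then 0 else P r) ≤ 1 / 3) :
    min n ((L + 1) / 2) ≤ 50 * (w * T + 3) := by
  have := rand_group (G := Multiplicative (∀ t, R t)) M L i j α β hα hβ hsc P hP0 hP1
    (fun r k a b => Multiplicative.ofAdd (fun t => f r t k a * g r t k b))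
    (fun r z => D r (Multiplicative.toAdd z)) (by
      intro A B hAB c hc
      simp only [code_eq, toAdd_ofAdd]
      exact hD A B hAB c hc) (2 ^ (w * T)) (fun _ => Finset.univ) (by
        intro _
        rw [Finset.card_univ, ← Nat.card_eq_fintype_card]
        exact card_le w hR) (fun _ _ _ _ => Finset.mem_univ _)
  have h2 : (5 * 2 ^ (w * T)) ^ 50 ≤ 2 ^ (50 * (w * T + 3)) := by
    calc (5 * 2 ^ (w * T)) ^ 50 ≤ (2 ^ 3 * 2 ^ (w * T)) ^ 50 := by gcongr; norm_num
      _ = 2 ^ (50 * (w * T + 3)) := by rw [← pow_add, ← pow_mul]; congr 1; ring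
  exact (Nat.pow_le_pow_iff_right (by norm_num)).1 (this.trans h2)

end ring

/-! ### the decision version -/

section decision
variable {X Y Z : Type*} [AddCommGroup X] [AddCommGroup Y] [AddCommGroup Z] [Fintype X]
  {m n p : ℕ}

/-- Sum over the slices of the values of a biadditive map `π` on the code `f k` of the `k`-th column
of `A` and the code `g` of the `k`-th row of `B`. -/
def pairCode (π : X →+ Y →+ Z) (f : Fin n → (Fin m → ℕ) → X) (g : (Fin p → ℕ) → Y)
    (A : Fin m → Fin n → ℕ) (B : Fin n → Fin p → ℕ) : Z :=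
  ∑ k, π (f k (fun i => A i k)) (g (B k))

theorem pairCode_switch (π : X →+ Y →+ Z) (f : Fin n → (Fin m → ℕ) → X) (g : (Fin p → ℕ) → Y)
    (A A' : Fin m → Fin n → ℕ) (b b' : Fin p → ℕ) (j₀ : ℕ)
    (hag : ∀ k : Fin n, (k : ℕ) < j₀ → (fun i => A i k) = (fun i => A' i k))
    (hsum : ∑ k, f k (fun i => A i k) = ∑ k, f k (fun i => A' i k)) :
    pairCode π f g A (fun k => if (k : ℕ) < j₀ then b' else b) =
    pairCode π f g A' (fun k => if (k : ℕ) < j₀ then b' else b) := by
  have key : ∀ C : Fin m → Fin n → ℕ,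
      pairCode π f g C (fun k => if (k : ℕ) < j₀ then b' else b) =
      π (∑ k, f k (fun i => C i k)) (g b) +
      ∑ k : Fin n, (if (k : ℕ) < j₀ then
        π (f k (fun i => C i k)) (g b') - π (f k (fun i => C i k)) (g b) else 0) := by
    intro C
    unfold pairCode
    rw [map_sum, AddMonoidHom.finsetSum_apply, ← Finset.sum_add_distrib]
    apply Finset.sum_congr rfl
    intro k _
    by_cases hk : (k : ℕ) < j₀
    · simp only [if_pos hk]; abel
    · simp only [if_neg hk]; abel
  rw [key A, key A', hsum]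
  congr 1
  apply Finset.sum_congr rfl
  intro k _
  split_ifs with hk
  · rw [hag k hk]
  · rfl

theorem det_dec (M : ℕ) (i : Fin m) (j : Fin p) (π : X →+ Y →+ Z)
    (f : Fin n → (Fin m → ℕ) → X) (g : (Fin p → ℕ) → Y) (D : Z → Prop)
    (hD : ∀ A B, Bounded M A B → ((∃ k, A i k + B k j < M) ↔ D (pairCode π f g A B))) :
    (n + M).choose n ≤ Fintype.card X := by
  classical
  rw [← Finset.card_univ]
  refine det_core (fun t => ∑ k, f k (fun i' => if i' = i then t k else 0)) Finset.univ
    (fun _ _ _ => Finset.mem_univ _) ?_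
  intro t t' ht ht' htL htL' heq j₀ hagree hlt
  have hsw := pairCode_switch π f g (fun i' k => if i' = i then t k else 0)
    (fun i' k => if i' = i then t' k else 0) (fun _ => M - (t j₀ + 1)) (fun _ => M) (j₀ : ℕ)
    (by
      intro k hk
      funext i'
      rw [hagree k (by rw [Fin.lt_def]; exact hk)]) heq
  have hb : ∀ u : Fin n → ℕ, (∀ k, u k ≤ M) → Bounded M
      (fun (i' : Fin m) (k : Fin n) => if i' = i then u k else 0)
      (fun (k : Fin n) (_ : Fin p) => (if (k : ℕ) < (j₀ : ℕ) then fun _ => M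
        else fun _ => M - (t j₀ + 1) : Fin p → ℕ) j) := by
    intro u hu
    refine ⟨fun i' k => ?_, fun k j' => ?_⟩
    · dsimp only; split_ifs
      · exact hu k
      · exact Nat.zero_le _
    · dsimp only; split_ifs
      · exact le_rfl
      · exact Nat.sub_le _ _
  have hBeq : (fun (k : Fin n) => (if (k : ℕ) < (j₀ : ℕ) then (fun _ => M)
        else (fun _ => M - (t j₀ + 1)) : Fin p → ℕ)) =
      (fun (k : Fin n) (_ : Fin p) => (if (k : ℕ) < (j₀ : ℕ) then fun _ => M
        else fun _ => M - (t j₀ + 1) : Fin p → ℕ) j) := by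
    funext k j'
    split_ifs <;> rfl
  rw [hBeq] at hsw
  have h1 := hD _ _ (hb t htL)
  have h2 := hD _ _ (hb t' htL')
  rw [← hsw, ← h1] at h2
  have hL' := htL' j₀
  have hyes : ∃ k : Fin n, (if i = i then t k else 0) +
      (if (k : ℕ) < (j₀ : ℕ) then fun _ => M else fun _ => M - (t j₀ + 1) : Fin p → ℕ) j < M := by
    refine ⟨j₀, ?_⟩
    simp only [if_true, lt_irrefl, if_false]
    omega
  obtain ⟨k, hk⟩ := h2.2 hyes
  simp only [if_true] at hk
  by_cases hkj : (k : ℕ) < (j₀ : ℕ)
  · rw [if_pos hkj] at hk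
    have hk2 : t' k + M < M := hk
    omega
  · rw [if_neg hkj] at hk
    have hk2 : t' k + (M - (t j₀ + 1)) < M := hk
    have : t' j₀ ≤ t' k := ht' (by rw [Fin.le_def]; omega)
    omega

open Classical in
theorem rand_dec (M : ℕ) (i : Fin m) (j : Fin p) (π : X →+ Y →+ Z)
    {Ω : Type*} [Fintype Ω] (P : Ω → ℝ) (hP0 : ∀ r, 0 ≤ P r) (hP1 : ∑ r, P r = 1)
    (f : Ω → Fin n → (Fin m → ℕ) → X) (g : Ω → (Fin p → ℕ) → Y) (D : Ω → Z → Prop)
    (hD : ∀ A B, Bounded M A B →
      ∑ r, (if ((∃ k, A i k + B k j < M) ↔ D r (pairCode π (f r) (g r) A B)) then 0 else P r)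
        ≤ 1 / 3) :
    2 ^ (min n ((M + 1) / 2)) ≤ (5 * Fintype.card X) ^ 50 := by
  set N := min n ((M + 1) / 2) with hN
  have hNn : N ≤ n := min_le_left _ _
  have hNL : 2 * N ≤ M + 1 := by
    have : N ≤ (M + 1) / 2 := min_le_right _ _
    omega
  let t : (Fin N → Bool) → Fin n → ℕ := fun x k =>
    if h : (k : ℕ) < N then 2 * (k : ℕ) + (if x ⟨k, h⟩ then 1 else 0) else M
  have htL : ∀ x k, t x k ≤ M := by
    intro x k
    show (if h : (k : ℕ) < N then 2 * (k : ℕ) + (if x ⟨k, h⟩ then 1 else 0) else M : ℕ) ≤ M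
    split_ifs <;> omega
  let kk : Fin N → Fin n := fun k => ⟨k, lt_of_lt_of_le k.2 hNn⟩
  have htk : ∀ x (k : Fin N), t x (kk k) = 2 * k + (if x k then 1 else 0) := by
    intro x k
    show (if h : (k : ℕ) < N then 2 * (k : ℕ) + (if x ⟨k, h⟩ then 1 else 0) else M : ℕ) = _
    rw [dif_pos k.2]
  have htgt : ∀ x (k : Fin N) (l : Fin n), (k : ℕ) < l → 2 * (k : ℕ) + 1 ≤ t x l := by
    intro x k l hkl
    show _ ≤ (if h : (l : ℕ) < N then 2 * (l : ℕ) + (if x ⟨l, h⟩ then 1 else 0) else M : ℕ)
    have := k.2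
    split_ifs <;> omega
  have htagree : ∀ x y (k : Fin N), (∀ l, l < k → x l = y l) →
      ∀ l : Fin n, (l : ℕ) < (k : ℕ) → t x l = t y l := by
    intro x y k hxy l hl
    show (if h : (l : ℕ) < N then 2 * (l : ℕ) + (if x ⟨l, h⟩ then 1 else 0) else M) =
      (if h : (l : ℕ) < N then 2 * (l : ℕ) + (if y ⟨l, h⟩ then 1 else 0) else M)
    have h : (l : ℕ) < N := lt_trans hl k.2
    rw [dif_pos h, dif_pos h, hxy ⟨l, h⟩ (by rw [Fin.lt_def]; exact hl)]
  let Am : (Fin N → Bool) → Fin m → Fin n → ℕ := fun x i' k => if i' = i then t x k else 0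
  let Bm : Fin N → Fin n → Fin p → ℕ := fun k l =>
    if (l : ℕ) < (k : ℕ) then (fun _ => M) else (fun _ => M - (2 * (k : ℕ) + 1))
  have hb : ∀ x k, Bounded M (Am x) (Bm k) := by
    intro x k
    refine ⟨fun i' l => ?_, fun l j' => ?_⟩
    · show (if i' = i then t x l else 0) ≤ M
      split_ifs
      · exact htL x l
      · exact Nat.zero_le _
    · show (if (l : ℕ) < (k : ℕ) then (fun _ => M) else (fun _ => M - (2 * (k : ℕ) + 1)) :
        Fin p → ℕ) j' ≤ M
      split_ifs
      · exact le_rfl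
      · exact Nat.sub_le _ _
  have hans : ∀ x (k : Fin N), (∃ l : Fin n, Am x i l + Bm k l j < M) ↔ x k = false := by
    intro x k
    constructor
    · rintro ⟨l, hl⟩
      have hl' : (if i = i then t x l else 0) + (if (l : ℕ) < (k : ℕ) then (fun _ => M)
        else (fun _ => M - (2 * (k : ℕ) + 1)) : Fin p → ℕ) j < M := hl
      simp only [if_true] at hl'
      have hk := k.2
      by_cases h : (l : ℕ) < (k : ℕ)
      · rw [if_pos h] at hl'
        have hl2 : t x l + M < M := hl'
        omega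
      · rw [if_neg h] at hl'
        have hl2 : t x l + (M - (2 * (k : ℕ) + 1)) < M := hl'
        have hle : (k : ℕ) ≤ l := by omega
        rcases eq_or_lt_of_le hle with h2 | h2
        · have h3 : kk k = l := Fin.ext h2
          rw [← h3, htk] at hl2
          cases hx : x k
          · rfl
          · rw [hx] at hl2
            simp only [if_true] at hl2
            omega
        · have := htgt x k l h2
          omega
    · intro hx
      refine ⟨kk k, ?_⟩
      show (if i = i then t x (kk k) else 0) + (if ((kk k : Fin n) : ℕ) < (k : ℕ) then (fun _ => M)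
        else (fun _ => M - (2 * (k : ℕ) + 1)) : Fin p → ℕ) j < M
      have h0 : ¬ ((kk k : Fin n) : ℕ) < (k : ℕ) := by show ¬ (k : ℕ) < k; omega
      have hk := k.2
      rw [if_neg h0, if_pos rfl, htk, hx]
      simp only [Bool.false_eq_true, if_false]
      omega
  refine rand_core P hP0 hP1 (Fintype.card X)
    (fun r x => ∑ k, f r k (fun i' => Am x i' k)) (fun _ => Finset.univ)
    (fun _ => le_of_eq Finset.card_univ) (fun _ _ => Finset.mem_univ _)
    (fun r k x => decide (¬ D r (pairCode π (f r) (g r) (Am x) (Bm k)))) ?_ ?_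
  · intro r k x y hxy hag
    have : pairCode π (f r) (g r) (Am x) (Bm k) = pairCode π (f r) (g r) (Am y) (Bm k) := by
      refine pairCode_switch π (f r) (g r) (Am x) (Am y) (fun _ => M - (2 * (k : ℕ) + 1))
        (fun _ => M) (k : ℕ) ?_ hxy
      intro l hl
      funext i'
      show (if i' = i then t x l else 0) = (if i' = i then t y l else 0)
      rw [htagree x y k hag l hl]
    rw [this]
  · intro k x
    refine le_trans (Finset.sum_le_sum ?_) (hD (Am x) (Bm k) (hb x k))
    intro r _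
    by_cases hgood : ((∃ l, Am x i l + Bm k l j < M) ↔
        D r (pairCode π (f r) (g r) (Am x) (Bm k)))
    · rw [if_pos hgood, if_pos]
      rw [hans x k] at hgood
      cases hx : x k with
      | true =>
        rw [hx] at hgood
        simp only [decide_eq_true_eq]
        intro hd
        exact absurd (hgood.2 hd) (by simp)
      | false =>
        simp only [decide_eq_false_iff_not, not_not]
        exact hgood.1 hx
    · rw [if_neg hgood]
      split_ifs
      · exact hP0 r
      · exact le_rfl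

end decision

/-- In the exact case all integers up to `2 M` are scales. -/
theorem scales_exact (M : ℕ) : Scales 1 0 (2 * M) (2 * M) :=
  ⟨id, fun l _ => by simp, le_rfl⟩

theorem two_pow_min_le_choose (n L : ℕ) : 2 ^ (min n L) ≤ (n + L).choose n := by
  have key : ∀ a b : ℕ, a ≤ b → 2 ^ a ≤ (a + b).choose a := by
    intro a
    induction a with
    | zero => intro b _; simp
    | succ a ih =>
      intro b hab
      have h1 := ih b (by omega)
      -- (a+1) * C(a+1+b, a+1) = (a+1+b) * C(a+b, a)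
      have h2 := Nat.add_one_mul_choose_eq (a + b) a
      have h3 : (a + 1 + b).choose (a + 1) * (a + 1) = (a + b + 1) * (a + b).choose a := by
        rw [h2]; congr 2; omega
      have h4 : 2 * (a + 1) ≤ a + b + 1 := by omega
      have h5 : 2 * (a + 1) * 2 ^ a ≤ (a + 1 + b).choose (a + 1) * (a + 1) := by
        rw [h3]; exact Nat.mul_le_mul h4 h1
      have h6 : 2 ^ (a + 1) * (a + 1) ≤ (a + 1 + b).choose (a + 1) * (a + 1) := by
        calc 2 ^ (a + 1) * (a + 1) = 2 * (a + 1) * 2 ^ a := by ring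
          _ ≤ _ := h5
      exact Nat.le_of_mul_le_mul_right h6 (by omega)
  rcases le_total n L with h | h
  · rw [min_eq_left h]; exact key n L h
  · rw [min_eq_right h]
    have := key L n h
    rwa [add_comm, ← Nat.choose_symm_add] at this

end Pool.Agent.N578.Enc
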